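import Pool.Agent.L0h80.CR.Law

/-!
# Poisson random rays in the plane: arbitrary joint laws of direction and length

The continuum version. Segments start at the points of a Poisson process of intensity `lam` in
the plane; the pairs of direction and length are i.i.d., with any joint law `W`. If
`s ^ 2 P (L ≥ s)` is bounded for `s ≥ 1`, then the critical intensity is positive.
For directions which are uniform and independent of the lengths this is contained in work of
Teixeira and Ungaretti on ellipses percolation (2017).
-/

set_option autoImplicit false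

namespace Pool.Agent.Results.MP_04d7a1_pr.AnyJointLaw

open MeasureTheory ProbabilityTheory Set
open scoped ENNReal NNReal
open Pool.Agent.Helper712_LP (E)
open Pool.Agent.L0h80.CR

/-- (1) The model exists for every intensity `lam > 0` and every joint law `W` of `(θ, L)`.
(2) If `L > 0` and `s ^ 2 P (L ≥ s)` is bounded for `s ≥ 1`, then the critical intensity is
positive, whatever the joint law of the direction and the length. -/
theorem result :
    (∀ (W : Measure (ℝ × ℝ)) [IsProbabilityMeasure W] (lam : ℝ≥0), 0 < lam →
      ∃ (Ω : Type) (_ : MeasurableSpace Ω) (P : Measure Ω) (_ : IsProbabilityMeasure P)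
        (X : ℕ → Ω → E 2) (Y : ℕ → Ω → ℝ × ℝ), Segments P lam W X Y) ∧
    (∀ (W : Measure (ℝ × ℝ)) [IsProbabilityMeasure W], W {y | y.2 ≤ 0} = 0 →
      (∃ C : ℝ≥0, ∀ s : ℝ, 1 ≤ s → ENNReal.ofReal (s ^ 2) * W {y | s ≤ y.2} ≤ C) →
      0 < critical W) := by
  refine ⟨fun W _ lam h => exists_segments W lam h, ?_⟩
  rintro W _ h0 ⟨C, hC⟩
  exact critical_pos W h0 (4 * C) (tail_bound W C hC)

end Pool.Agent.Results.MP_04d7a1_pr.AnyJointLaw
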